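import Pool.Agent.Lib.MP_86b3b2_co.Final

namespace Pool.Agent.Results.MP_86b3b2_co.Positivity

open PowerSeries Finset

/-- The numerator `∏_{i=0}^{n-1} (1 - q^{2k-1+2i})` of `G_{k,n}` (the variable `q` is `X`). -/
noncomputable def Gnum (k n : ℕ) : PowerSeries ℤ :=
  ∏ i ∈ range n, (1 - (X : PowerSeries ℤ) ^ (2 * k - 1 + 2 * i))

/-- The denominator `∏_{i=0}^{n} (1 - q^{2i+1})` of `G_{k,n}`. -/
noncomputable def Gden (n : ℕ) : PowerSeries ℤ :=
  ∏ i ∈ range (n + 1), (1 - (X : PowerSeries ℤ) ^ (2 * i + 1))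

/-- The formal power series `G_{k,n}(q)`; `invOfUnit f 1` is the inverse of a power series `f`
with constant coefficient `1`. -/
noncomputable def G (k n : ℕ) : PowerSeries ℤ := Gnum k n * invOfUnit (Gden n) 1

lemma G_eq (k n : ℕ) (hk : 1 ≤ k) : G k n = Pool.Agent.Lib.GKN.Gs (k - 1) n := by
  have h1 : Gnum k n = Pool.Agent.Lib.GKN.po (2 * (k - 1) + 1) n := by
    unfold Gnum Pool.Agent.Lib.GKN.po
    apply prod_congr rfl
    intro i _
    have e : 2 * k - 1 + 2 * i = 2 * (k - 1) + 1 + 2 * i := by omega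
    rw [e]
  have h2 : Gden n = Pool.Agent.Lib.GKN.po 1 (n + 1) := by
    unfold Gden Pool.Agent.Lib.GKN.po
    apply prod_congr rfl
    intro i _
    rw [add_comm 1 (2 * i)]
  have h3 : constantCoeff (Gden n) = ((1 : ℤˣ) : ℤ) := by
    unfold Gden
    rw [map_prod]
    simp
  have h4 : Gden n * invOfUnit (Gden n) 1 = 1 := mul_invOfUnit (Gden n) 1 h3
  have h5 : Gden n * Pool.Agent.Lib.GKN.ip 1 (n + 1) = 1 := by
    rw [h2]; exact Pool.Agent.Lib.GKN.po_mul_ip 1 (n + 1) one_pos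
  have h6 : invOfUnit (Gden n) 1 = Pool.Agent.Lib.GKN.ip 1 (n + 1) := by
    calc invOfUnit (Gden n) 1 = (Gden n * Pool.Agent.Lib.GKN.ip 1 (n + 1)) *
          invOfUnit (Gden n) 1 := by rw [h5, one_mul]
      _ = (Gden n * invOfUnit (Gden n) 1) * Pool.Agent.Lib.GKN.ip 1 (n + 1) := by ring
      _ = _ := by rw [h4, one_mul]
  unfold G Pool.Agent.Lib.GKN.Gs
  rw [h1, h6]

/-- Full answer to Q1: for all `k ≥ 1` and `n ≥ 0` every coefficient of `G_{k,n}(q)` is
nonnegative. -/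
theorem result : ∀ k n : ℕ, 1 ≤ k → ∀ i : ℕ, 0 ≤ coeff i (G k n) := by
  intro k n hk i
  rw [G_eq k n hk]
  exact Pool.Agent.Lib.GKN.main (k - 1) n i

end Pool.Agent.Results.MP_86b3b2_co.Positivity
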